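import Pool.Agent.Y395.RS.Stm

set_option autoImplicit false

/-!
# Project RS, the statement CORE2: near-automorphisms fix the core
-/

namespace Pool.Agent.Y405.RS.Core2

open Finset Pool.Agent.H234RC Pool.Agent.TH953.RC Pool.Agent.Y395.RS

lemma sum_pow_card {V : Type} [Fintype V] [DecidableEq V] (a : ℝ) :
    ∑ K ∈ (univ : Finset V).powerset, a ^ K.card = (1 + a) ^ Fintype.card V := by
  have h := Finset.sum_pow_mul_eq_add_pow a 1 (univ : Finset V)
  simp only [one_pow, mul_one] at h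
  rw [h, add_comm, card_univ]

lemma sum_bound {V : Type} [Fintype V] [DecidableEq V] (a : ℝ) (ha : 0 ≤ a)
    (hn : (Fintype.card V : ℝ) * a ≤ 1) :
    ∑ K ∈ (univ : Finset V).powerset.filter (fun K => K.Nonempty), a ^ K.card ≤
      2 * ((Fintype.card V : ℝ) * a) := by
  have h1 : ∑ K ∈ (univ : Finset V).powerset, a ^ K.card =
      ∑ K ∈ (univ : Finset V).powerset.filter (fun K => K.Nonempty), a ^ K.card + 1 := by
    rw [← sum_filter_add_sum_filter_not _ (fun K : Finset V => K.Nonempty)]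
    congr 1
    have h2 : (univ : Finset V).powerset.filter (fun K => ¬ K.Nonempty) = {∅} := by
      ext K
      simp [not_nonempty_iff_eq_empty]
    rw [h2, sum_singleton, card_empty, pow_zero]
  have h3 : (1 + a) ^ Fintype.card V ≤ 1 + 2 * ((Fintype.card V : ℝ) * a) := by
    have h4 : (1 + a) ^ Fintype.card V ≤ Real.exp ((Fintype.card V : ℝ) * a) := by
      rw [Real.exp_nat_mul]
      exact pow_le_pow_left₀ (by linarith) (by linarith [Real.add_one_le_exp a]) _
    have h5 : 0 ≤ (Fintype.card V : ℝ) * a := by positivity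
    have h6 := Real.abs_exp_sub_one_sub_id_le (x := (Fintype.card V : ℝ) * a)
      (by rwa [abs_of_nonneg h5])
    have h7 := (abs_le.mp h6).2
    nlinarith
  have h8 := sum_pow_card (V := V) a
  linarith

lemma prob_bound (n k : ℕ) (hn : 2 ≤ n) :
    (3 / 4 : ℝ) ^ (15 * k * (Nat.log 2 n + 1)) ≤ ((1 : ℝ) / n) ^ (6 * k) := by
  have h1 : (3 / 4 : ℝ) ^ (15 * k * (Nat.log 2 n + 1)) =
      (((3 / 4 : ℝ) ^ 5) ^ (Nat.log 2 n + 1)) ^ (3 * k) := by
    rw [← pow_mul, ← pow_mul]
    congr 1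
    ring
  have h2 : ((3 / 4 : ℝ) ^ 5) ^ (Nat.log 2 n + 1) ≤ (1 / (n : ℝ)) ^ 2 := by
    have h3 : ((3 / 4 : ℝ) ^ 5) ^ (Nat.log 2 n + 1) ≤ ((1 / 2 : ℝ) ^ 2) ^ (Nat.log 2 n + 1) :=
      pow_le_pow_left₀ (by positivity) (by norm_num) _
    have h4 : ((1 / 2 : ℝ) ^ 2) ^ (Nat.log 2 n + 1) = (1 / 2 ^ (Nat.log 2 n + 1)) ^ 2 := by
      rw [← pow_mul, mul_comm, pow_mul, div_pow, one_pow]
    rw [h4] at h3
    refine h3.trans (pow_le_pow_left₀ (by positivity) ?_ _)
    have h5 : (n : ℝ) ≤ 2 ^ (Nat.log 2 n + 1) := by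
      exact_mod_cast (Nat.lt_pow_succ_log_self (by norm_num) n).le
    exact one_div_le_one_div_of_le (by positivity) h5
  rw [h1]
  refine (pow_le_pow_left₀ (by positivity) h2 _).trans (le_of_eq ?_)
  rw [← pow_mul]
  congr 1
  ring

/-- the hypotheses of CERT -/
def Hyp {V : Type} (Y K B : Finset V) (ψ : V → V) : Prop :=
  K ⊆ Y ∧ (∀ x ∈ K, x ∉ B) ∧ Set.InjOn ψ K ∧ (∀ x ∈ K, ψ x ≠ x) ∧ (∀ x, x ∉ K → ψ x = x)

theorem main (hC : CERT) : CORE2 := by
  intro V _ _ G Y k hV hY hk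
  classical
  set n := Fintype.card V with hn
  set L := Nat.log 2 n with hL
  have hn0 : (0 : ℝ) < n := by
    have : 0 < n := by omega
    exact_mod_cast this
  let Ψ : Finset V → Finset (V → V) := fun K =>
    Fintype.piFinset (fun x => if x ∈ K then (univ : Finset V) else {x})
  have hΨc : ∀ K, (Ψ K).card = n ^ K.card := by
    intro K
    rw [Fintype.card_piFinset]
    have h1 : ∀ x : V, (if x ∈ K then (univ : Finset V) else {x}).card =
        if x ∈ K then n else 1 := by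
      intro x
      split_ifs
      · exact card_univ
      · exact card_singleton _
    rw [prod_congr rfl (fun x _ => h1 x), prod_ite, prod_const, prod_const_one, mul_one]
    congr 1
    congr 1
    ext x
    simp
  let 𝒦 : Finset (Finset V) := (univ : Finset V).powerset.filter (fun K => K.Nonempty)
  let P : V × V → Finset V → (V → V) → Finset (Sym2 V) → Prop := fun u K ψ F =>
    Hyp Y K {u.1, u.2} ψ ∧ Ev Y K {u.1, u.2} ψ F
  -- the deterministic part
  have hdet : ∀ F, F ⊆ ed G → (∃ y ∈ Y, ¬ Rn (gr F) y) →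
      ∃ u ∈ (univ : Finset (V × V)), ∃ K ∈ 𝒦, ∃ ψ ∈ Ψ K, P u K ψ F := by
    rintro F hF ⟨y, hy, hR⟩
    unfold Rn at hR
    push Not at hR
    obtain ⟨φ, hφ, hy1, hy2, hy3⟩ := hR
    let K : Finset V := Y.filter (fun x => x ≠ φ.2.1 ∧ x ≠ φ.2.2 ∧ φ.1 x ≠ x)
    have hK : ∀ x, x ∈ K ↔ x ∈ Y ∧ x ≠ φ.2.1 ∧ x ≠ φ.2.2 ∧ φ.1 x ≠ x := fun x => mem_filter
    let ψ : V → V := fun x => if x ∈ K then φ.1 x else x
    have hψ1 : ∀ x, x ∈ K → ψ x = φ.1 x := fun x hx => if_pos hx
    have hψ2 : ∀ x, x ∉ K → ψ x = x := fun x hx => if_neg hx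
    refine ⟨(φ.2.1, φ.2.2), mem_univ _, K, ?_, ψ, ?_, ⟨?_, ?_, ?_, ?_, ?_⟩, ?_⟩
    · rw [mem_filter]
      exact ⟨mem_powerset.mpr (subset_univ _), ⟨y, (hK y).mpr ⟨hy, hy1, hy2, hy3⟩⟩⟩
    · rw [Fintype.mem_piFinset]
      intro x
      by_cases hx : x ∈ K
      · rw [if_pos hx]
        exact mem_univ _
      · rw [if_neg hx, mem_singleton]
        exact hψ2 x hx
    · exact fun x hx => ((hK x).mp hx).1
    · intro x hx hB
      have h1 := (hK x).mp hx
      rw [mem_insert, mem_singleton] at hB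
      rcases hB with h | h
      · exact h1.2.1 h
      · exact h1.2.2.1 h
    · intro x hx z hz h
      rw [hψ1 x hx, hψ1 z hz] at h
      exact φ.1.injective h
    · intro x hx
      rw [hψ1 x hx]
      exact ((hK x).mp hx).2.2.2
    · exact hψ2
    · intro x hx z hz hzB hxz
      have h1 := (hK x).mp hx
      rw [mem_insert, mem_singleton, not_or] at hzB
      have h2 : ψ z = φ.1 z := by
        by_cases hzK : z ∈ K
        · exact hψ1 z hzK
        · rw [hψ2 z hzK]
          by_contra hne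
          exact hzK ((hK z).mpr ⟨hz, hzB.1, hzB.2, fun e => hne e.symm⟩)
      rw [hψ1 x hx, h2]
      rw [← gr_adj_of hF] at hxz ⊢
      exact (hφ x z h1.2.1 h1.2.2.1 hzB.1 hzB.2).mpr hxz
  -- the probability of a certificate
  have hP : ∀ u K ψ, cnt (ed G) (P u K ψ) ≤ ((1 : ℝ) / n) ^ (6 * K.card) * 2 ^ (ed G).card := by
    intro u K ψ
    by_cases hH : Hyp Y K {u.1, u.2} ψ
    · obtain ⟨h1, h2, h3, h4, h5⟩ := hH
      have h6 := hC V G Y K {u.1, u.2} ψ k (15 * K.card * (L + 1)) h1 h2 h3 h4 h5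
        card_le_two (fun x hx => hY x (h1 hx)) (by
          have h7 : 300 * (L + 1) ≤ k - 3 := by omega
          calc 18 * (15 * K.card * (L + 1)) ≤ K.card * (300 * (L + 1)) := by nlinarith
            _ ≤ K.card * (k - 3) := Nat.mul_le_mul_left _ h7)
      refine (cnt_mono fun F _ hF => hF.2).trans (h6.trans ?_)
      exact mul_le_mul_of_nonneg_right (prob_bound n K.card hV) (by positivity)
    · refine (cnt_mono (Q := fun _ => False) fun F _ hF => hH hF.1).trans ?_
      rw [cnt_false]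
      positivity
  -- the union bound
  have hU1 : ∀ u K, cnt (ed G) (fun F => ∃ ψ ∈ Ψ K, P u K ψ F) ≤
      ((1 : ℝ) / n ^ 5) ^ K.card * 2 ^ (ed G).card := by
    intro u K
    refine (cnt_ex _ _ _).trans ((sum_le_sum fun ψ _ => hP u K ψ).trans (le_of_eq ?_))
    rw [sum_const, hΨc, nsmul_eq_mul, ← mul_assoc]
    congr 1
    push_cast
    rw [pow_mul, ← mul_pow]
    congr 1
    field_simp
  have hU2 : ∀ u, cnt (ed G) (fun F => ∃ K ∈ 𝒦, ∃ ψ ∈ Ψ K, P u K ψ F) ≤
      2 / n ^ 4 * 2 ^ (ed G).card := by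
    intro u
    refine (cnt_ex _ _ _).trans ((sum_le_sum fun K _ => hU1 u K).trans ?_)
    rw [← sum_mul]
    refine mul_le_mul_of_nonneg_right ?_ (by positivity)
    have h1 := sum_bound (V := V) ((1 : ℝ) / n ^ 5) (by positivity) (by
      rw [← hn]
      have h2 : (n : ℝ) * (1 / n ^ 5) = 1 / n ^ 4 := by field_simp
      rw [h2, div_le_one (by positivity)]
      have h3 : (1 : ℝ) ≤ n := by
        have : 1 ≤ n := by omega
        exact_mod_cast this
      exact one_le_pow₀ h3)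
    refine h1.trans (le_of_eq ?_)
    rw [← hn]
    field_simp
  refine (cnt_mono hdet).trans ((cnt_ex _ _ _).trans ((sum_le_sum fun u _ => hU2 u).trans ?_))
  rw [sum_const, card_univ, Fintype.card_prod, nsmul_eq_mul, ← hn, ← mul_assoc]
  refine mul_le_mul_of_nonneg_right ?_ (by positivity)
  push_cast
  have h1 : (n : ℝ) * n * (2 / n ^ 4) = 1 / n * (2 / n) := by field_simp
  rw [h1]
  have h2 : (2 : ℝ) / n ≤ 1 := by
    rw [div_le_one hn0]
    exact_mod_cast hV
  exact mul_le_of_le_one_right (by positivity) h2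

end Pool.Agent.Y405.RS.Core2
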